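import Pool.Agent.Work.MP_0fba91_ag.Final
import Pool.Agent.Work.MP_0fba91_ag.Genus

/-!
There is a field `k` of characteristic zero and a curve `y² = f(x)` of genus two over `k` such that
the class of `Pic¹` is not divisible by `2` in `H¹(k, J)`.
-/

open Polynomial Pool.Agent.Work.MP_0fba91_ag

noncomputable section

namespace Pool.Agent.Results.MP_0fba91_ag.PicOneNotDivisible

theorem result : ∃ (k : Type) (_ : Field k) (_ : CharZero k) (f : k[X]),
    (Squarefree f ∧ f.natDegree = 6) ∧
      (IsField (FunField k f) ∧ HasGenus (AlgebraicClosure k) (FunField k f) 2) ∧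
      ∃ c : H1Jac k f, (∀ c' : H1Jac k f, IsClassOfPic1 k f c' ↔ c' = c) ∧
        ¬ ∃ z : H1Jac k f, 2 • z = c := by
  obtain ⟨k, hk, hk0, ⟨S⟩⟩ := exists_setup
  obtain ⟨c, hc⟩ := S.exists_class
  refine ⟨k, hk, hk0, S.sextic, ⟨S.separable_sextic.squarefree, S.natDegree_sextic⟩,
    ⟨Field.toIsField _, S.M.hasGenus_two S.e_injective⟩, c, ?_, ?_⟩
  · intro c'
    constructor
    · intro hc'
      exact S.class_unique hc hc'
    · rintro rfl
      exact hc
  · exact S.not_divisible c hc

end Pool.Agent.Results.MP_0fba91_ag.PicOneNotDivisible
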